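import Pool.Agent.Helper51.Hart.Defs2

set_option autoImplicit false

noncomputable section

open Set Metric Complex MeasureTheory

namespace Pool.Helper51.Hart

variable {σ : ℝ × ℂ → ℝ} {m : ℕ}

theorem exists_cover (hσ : Slice σ)
    (hbox : ∀ (r : ℝ) (w : ℂ), 0 ≤ r → σ (r, w) ≤ 0 →
      ∃ a b δ, a < r ∧ r < b ∧ GoodBox σ a b w δ) :
    ∃ m : ℕ, Nonempty (Cover σ m) := by
  classical
  set k : Set (ℝ × ℂ) := {p : ℝ × ℂ | σ p ≤ 0} ∩ {p | 0 ≤ p.1} with hk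
  have hkc : IsCompact k :=
    hσ.cpt.inter_right (isClosed_le continuous_const continuous_fst)
  have H : ∀ p : k, ∃ a b δ, a < p.1.1 ∧ p.1.1 < b ∧ GoodBox σ a b p.1.2 δ :=
    fun p => hbox p.1.1 p.1.2 p.2.2 p.2.1
  choose a b δ ha hb hG using H
  obtain ⟨t, ht⟩ := hkc.elim_finite_subcover
    (fun p : k => Ioo (a p) (b p) ×ˢ ball (p.1.2) (δ p / 3))
    (fun p => isOpen_Ioo.prod isOpen_ball) (by
      intro p hp
      refine mem_iUnion.2 ⟨⟨p, hp⟩, ⟨ha ⟨p, hp⟩, hb ⟨p, hp⟩⟩, mem_ball_self ?_⟩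
      have := (hG ⟨p, hp⟩).hδ
      positivity)
  refine ⟨t.card, ⟨⟨fun i => a (t.equivFin.symm i), fun i => b (t.equivFin.symm i),
    fun i => (t.equivFin.symm i).1.1.2, fun i => δ (t.equivFin.symm i),
    fun i => hG (t.equivFin.symm i), ?_⟩⟩⟩
  intro r w hr hw
  have hp : ((r, w) : ℝ × ℂ) ∈ k := ⟨hw, hr⟩
  obtain ⟨p, hpt, hpU⟩ := mem_iUnion₂.1 (ht hp)
  refine ⟨t.equivFin ⟨p, hpt⟩, ?_⟩
  simp only [Equiv.symm_apply_apply]
  refine ⟨hpU.1.1, hpU.1.2, ?_⟩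
  have := hpU.2
  rwa [mem_ball, dist_eq_norm] at this

private theorem h39_exists_pos {ι : Type*} [Finite ι] (G : ι → ℝ) (hG : ∀ i, 0 < G i) :
    ∃ g : ℝ, 0 < g ∧ ∀ i, g ≤ G i := by
  have h1 : ∀ᶠ g in nhdsWithin (0 : ℝ) (Ioi 0), ∀ i, g ≤ G i := by
    rw [Filter.eventually_all]
    intro i
    have : ∀ᶠ g in nhds (0 : ℝ), g ≤ G i :=
      (gt_mem_nhds (hG i)).mono (fun g hg => le_of_lt hg)
    exact this.filter_mono nhdsWithin_le_nhds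
  obtain ⟨g, hg1, hg2⟩ := (h1.and self_mem_nhdsWithin).exists
  exact ⟨g, hg2, hg1⟩

theorem gap (hσ : Slice σ) (X : Cover σ m) : ∃ g : ℝ, Gap X g := by
  have H : ∀ i : Fin m, ∃ G : ℝ, 0 < G ∧ ∀ r w, 0 ≤ r → σ (r, w) ≤ 0 → ‖w - X.c i‖ ≤ X.δ i →
      G ≤ |r - X.a i| ∧ G ≤ |r - X.b i| := by
    intro i
    set k : Set (ℝ × ℂ) := {p : ℝ × ℂ | σ p ≤ 0} ∩ {p | 0 ≤ p.1 ∧ ‖p.2 - X.c i‖ ≤ X.δ i}
      with hk
    have hkc : IsCompact k := by
      refine hσ.cpt.inter_right (IsClosed.and ?_ ?_)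
      · exact isClosed_le continuous_const continuous_fst
      · exact isClosed_le (by fun_prop) continuous_const
    rcases k.eq_empty_or_nonempty with he | hne
    · refine ⟨1, one_pos, ?_⟩
      intro r w hr hw hd
      exfalso
      have : ((r, w) : ℝ × ℂ) ∈ k := ⟨hw, hr, hd⟩
      rw [he] at this
      exact this
    · obtain ⟨p, hp, hmin⟩ := hkc.exists_isMinOn hne
        (f := fun p : ℝ × ℂ => min |p.1 - X.a i| |p.1 - X.b i|) (by fun_prop)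
      have hends := (X.box i).ends p.1 p.2 hp.2.1 hp.1 hp.2.2
      refine ⟨min |p.1 - X.a i| |p.1 - X.b i|, lt_min ?_ ?_, ?_⟩
      · exact abs_pos.2 (sub_ne_zero.2 hends.1)
      · exact abs_pos.2 (sub_ne_zero.2 hends.2)
      · intro r w hr hw hd
        have h1 := hmin (show ((r, w) : ℝ × ℂ) ∈ k from ⟨hw, hr, hd⟩)
        simp only [mem_ofPred_eq] at h1
        exact ⟨h1.trans (min_le_left _ _), h1.trans (min_le_right _ _)⟩
  choose G hG0 hG using H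
  obtain ⟨g, hg0, hg⟩ := h39_exists_pos G hG0
  exact ⟨g, hg0, fun i r w hr hw hd =>
    ⟨(hg i).trans (hG i r w hr hw hd).1, (hg i).trans (hG i r w hr hw hd).2⟩⟩

/-- nearby radii are in the same interval -/
private theorem h39_near {X : Cover σ m} {g : ℝ} (hg : Gap X g) {i : Fin m} {r r1 : ℝ} {w1 : ℂ}
    (h0 : 0 ≤ r1) (h1 : σ (r1, w1) ≤ 0) (h2 : ‖w1 - X.c i‖ ≤ X.δ i) (h3 : |r - r1| < g) :
    X.InN i r ↔ X.InN i r1 := by
  obtain ⟨ga, gb⟩ := hg.2 i r1 w1 h0 h1 h2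
  obtain ⟨h3a, h3b⟩ := abs_lt.1 h3
  rw [le_abs] at ga gb
  unfold Cover.InN
  constructor
  · rintro ⟨ha, hb⟩
    constructor
    · rcases ga with ga | ga <;> linarith
    · rcases gb with gb | gb <;> linarith
  · rintro ⟨ha, hb⟩
    constructor
    · rcases ga with ga | ga <;> linarith
    · rcases gb with gb | gb <;> linarith

/-- vertical segments of the closed slice do not leave the interval -/
private theorem h39_vert {X : Cover σ m} {j : Fin m} {r r1 : ℝ} {w : ℂ}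
    (h0 : 0 ≤ r) (h0' : 0 ≤ r1) (h1 : ∀ s ∈ uIcc r r1, σ (s, w) ≤ 0)
    (h2 : ‖w - X.c j‖ ≤ X.δ j) (h3 : X.InN j r) : X.InN j r1 := by
  obtain ⟨ha, hb⟩ := h3
  have key : ∀ s ∈ uIcc r r1, s ≠ X.a j ∧ s ≠ X.b j := by
    intro s hs
    refine (X.box j).ends s w ?_ (h1 s hs) h2
    rcases mem_uIcc.1 hs with h | h
    · exact h0.trans h.1
    · exact h0'.trans h.1
  constructor
  · by_contra hcon
    push Not at hcon
    exact (key (X.a j) (mem_uIcc.2 (Or.inr ⟨hcon, ha.le⟩))).1 rfl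
  · by_contra hcon
    push Not at hcon
    exact (key (X.b j) (mem_uIcc.2 (Or.inl ⟨hb.le, hcon⟩))).2 rfl

theorem transfer (hσ : Slice σ) (X : Cover σ m) {g : ℝ} (hg : Gap X g) :
    ∃ l0 : ℝ, 0 < l0 ∧ ∀ l, 0 < l → l ≤ l0 → Transfer X l := by
  have H : ∀ i : Fin m, ∃ C : ℝ, 0 ≤ C ∧ ∀ r w r' w', InBox σ (X.a i) (X.b i) (X.c i) (X.δ i) r w →
      InBox σ (X.a i) (X.b i) (X.c i) (X.δ i) r' w' →
      ∃ r1 w1 r2, Chain σ r w r1 w1 r2 r' w' ∧ ‖w1 - w‖ ≤ C * ‖w' - w‖ ∧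
        ‖w' - w1‖ ≤ C * ‖w' - w‖ := fun i => (X.box i).chain
  choose C hC0 hC using H
  obtain ⟨l1, hl1, hl1'⟩ := h39_exists_pos
    (fun p : Fin m × Fin m => X.δ p.2 / (2 * (2 * C p.1 + 1))) (by
      intro p
      have h1 := (X.box p.2).hδ
      have h2 := hC0 p.1
      positivity)
  refine ⟨min l1 g, lt_min hl1 hg.1, ?_⟩
  intro l hl hll i j r r' w hwi hwj hn hn' hri hrj hri'
  obtain ⟨h0r, r1, w1, h0r1, hs1, hd1, hw1⟩ := hn
  obtain ⟨h0r', r2, w2, h0r2, hs2, hd2, hw2⟩ := hn'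
  have hlg : l ≤ g := hll.trans (min_le_right _ _)
  have hlC : ∀ i j, (2 * C i + 1) * l ≤ X.δ j / 2 := by
    intro i j
    have h1 := hl1' (i, j)
    have h2 := hC0 i
    have h3 : l ≤ X.δ j / (2 * (2 * C i + 1)) := (hll.trans (min_le_left _ _)).trans h1
    rw [le_div_iff₀ (by positivity)] at h3
    linarith
  have hlδ : ∀ j, l ≤ X.δ j / 2 := by
    intro j
    have h1 := hlC j j
    have h2 := mul_nonneg (hC0 j) hl.le
    nlinarith
  -- norms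
  have tri : ∀ (u v c : ℂ), ‖v - c‖ ≤ ‖u - v‖ + ‖u - c‖ := by
    intro u v c
    calc ‖v - c‖ = ‖(u - c) - (u - v)‖ := by congr 1; ring
      _ ≤ ‖u - c‖ + ‖u - v‖ := norm_sub_le _ _
      _ = _ := by ring
  have n1i : ‖w1 - X.c i‖ < X.δ i := by
    have := tri w w1 (X.c i); have := hlδ i; linarith
  have n1j : ‖w1 - X.c j‖ < X.δ j := by
    have := tri w w1 (X.c j); have := hlδ j; linarith
  have n2i : ‖w2 - X.c i‖ < X.δ i := by
    have := tri w w2 (X.c i); have := hlδ i; linarith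
  have n2j : ‖w2 - X.c j‖ < X.δ j := by
    have := tri w w2 (X.c j); have := hlδ j; linarith
  have r1i := (h39_near hg h0r1 hs1 n1i.le (hd1.trans_le hlg)).1 hri
  have r1j := (h39_near hg h0r1 hs1 n1j.le (hd1.trans_le hlg)).1 hrj
  have r2i := (h39_near hg h0r2 hs2 n2i.le (hd2.trans_le hlg)).1 hri'
  obtain ⟨r1', w1', r2', ⟨c1, c2, c3, c4, c5, c6, c7⟩, e1, e2⟩ :=
    hC i r1 w1 r2 w2 ⟨h0r1, hs1, r1i.1, r1i.2, n1i⟩ ⟨h0r2, hs2, r2i.1, r2i.2, n2i⟩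
  have h12 : ‖w2 - w1‖ ≤ 2 * l := by
    calc ‖w2 - w1‖ = ‖(w - w1) - (w - w2)‖ := by congr 1; ring
      _ ≤ ‖w - w1‖ + ‖w - w2‖ := norm_sub_le _ _
      _ ≤ _ := by linarith
  have n3 : ‖w1' - X.c j‖ ≤ X.δ j := by
    have t1 : ‖w1' - X.c j‖ ≤ ‖w1' - w1‖ + ‖w1 - w‖ + ‖w - X.c j‖ := by
      calc ‖w1' - X.c j‖ = ‖(w1' - w1) + (w1 - w) + (w - X.c j)‖ := by congr 1; ring
        _ ≤ _ := norm_add₃_le
    have t2 : ‖w1 - w‖ < l := by rw [norm_sub_rev]; exact hw1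
    have t3 : C i * ‖w2 - w1‖ ≤ C i * (2 * l) := mul_le_mul_of_nonneg_left h12 (hC0 i)
    have t4 := hlC i j
    nlinarith
  have k1 := h39_vert h0r1 c1 c3 n1j.le r1j
  have k2 := h39_vert c1 c2 c5 n3 k1
  have k3 := h39_vert c2 h0r2 c7 n2j.le k2
  exact (h39_near hg h0r2 hs2 n2j.le (hd2.trans_le hlg)).2 k3

end Pool.Helper51.Hart
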