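import Pool.Agent.Helper51.Hart.Defs2

set_option autoImplicit false

noncomputable section

open Set Metric Complex MeasureTheory

namespace Pool.Helper51.Hart

variable {σ : ℝ × ℂ → ℝ}

private theorem h39_closed (hσ : Slice σ) (w : ℂ) : IsClosed {s : ℝ | σ (s, w) ≤ 0} := by
  have hc : Continuous σ := hσ.smooth.continuous
  exact isClosed_le (by fun_prop) continuous_const

theorem exists_maxInt (hσ : Slice σ) {r : ℝ} {w : ℂ} (hr : 0 ≤ r) (h : σ (r, w) ≤ 0) :
    ∃ α β, MaxInt σ w α β ∧ r ∈ Icc α β := by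
  have hcl := h39_closed hσ w
  -- the upper end
  obtain ⟨M, hM⟩ := hσ.cpt.isBounded.exists_norm_le
  set B : Set ℝ := {s | r ≤ s ∧ ∀ x ∈ Icc r s, σ (x, w) ≤ 0} with hB
  have hrB : r ∈ B := by
    refine ⟨le_rfl, fun x hx => ?_⟩
    have : x = r := le_antisymm hx.2 hx.1
    rw [this]; exact h
  have hBb : BddAbove B := by
    refine ⟨M, fun s hs => ?_⟩
    have h1 : σ (s, w) ≤ 0 := hs.2 s ⟨hs.1, le_rfl⟩
    have h2 := hM (s, w) h1
    calc s ≤ |s| := le_abs_self s
      _ = ‖s‖ := rfl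
      _ ≤ ‖((s, w) : ℝ × ℂ)‖ := norm_fst_le ((s, w) : ℝ × ℂ)
      _ ≤ M := h2
  set β := sSup B with hβ
  have hrβ : r ≤ β := le_csSup hBb hrB
  have hβ1 : Ico r β ⊆ {s : ℝ | σ (s, w) ≤ 0} := by
    intro x hx
    obtain ⟨s, hs, hxs⟩ := exists_lt_of_lt_csSup ⟨r, hrB⟩ hx.2
    exact hs.2 x ⟨hx.1, hxs.le⟩
  have hβ2 : ∀ x ∈ Icc r β, σ (x, w) ≤ 0 := by
    rcases hrβ.eq_or_lt with he | hlt
    · intro x hx
      have : x = r := le_antisymm (by rw [he]; exact hx.2) hx.1
      rw [this]; exact h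
    · have h1 : closure (Ico r β) ⊆ {s : ℝ | σ (s, w) ≤ 0} := closure_minimal hβ1 hcl
      rw [closure_Ico hlt.ne] at h1
      exact fun x hx => h1 hx
  have hβ3 : ∀ ε > 0, ∃ s, β < s ∧ s < β + ε ∧ 0 < σ (s, w) := by
    intro ε hε
    by_contra hcon
    push Not at hcon
    have h1 : β + ε / 2 ∈ B := by
      refine ⟨by linarith, fun x hx => ?_⟩
      rcases le_or_gt x β with hxβ | hxβ
      · exact hβ2 x ⟨hx.1, hxβ⟩
      · exact hcon x hxβ (by linarith [hx.2])
    have h2 := le_csSup hBb h1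
    linarith
  -- the lower end
  set A : Set ℝ := {s | 0 ≤ s ∧ s ≤ r ∧ ∀ x ∈ Icc s r, σ (x, w) ≤ 0} with hA
  have hrA : r ∈ A := by
    refine ⟨hr, le_rfl, fun x hx => ?_⟩
    have : x = r := le_antisymm hx.2 hx.1
    rw [this]; exact h
  have hAb : BddBelow A := ⟨0, fun s hs => hs.1⟩
  set α := sInf A with hα
  have hαr : α ≤ r := csInf_le hAb hrA
  have hα0 : 0 ≤ α := le_csInf ⟨r, hrA⟩ (fun s hs => hs.1)
  have hα1 : Ioc α r ⊆ {s : ℝ | σ (s, w) ≤ 0} := by
    intro x hx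
    obtain ⟨s, hs, hxs⟩ := exists_lt_of_csInf_lt ⟨r, hrA⟩ hx.1
    exact hs.2.2 x ⟨hxs.le, hx.2⟩
  have hα2 : ∀ x ∈ Icc α r, σ (x, w) ≤ 0 := by
    rcases hαr.eq_or_lt with he | hlt
    · intro x hx
      have : x = r := le_antisymm hx.2 (by rw [← he]; exact hx.1)
      rw [this]; exact h
    · have h1 : closure (Ioc α r) ⊆ {s : ℝ | σ (s, w) ≤ 0} := closure_minimal hα1 hcl
      rw [closure_Ioc hlt.ne] at h1
      exact fun x hx => h1 hx
  have hα3 : α = 0 ∨ ∀ ε > 0, ∃ s, 0 ≤ s ∧ α - ε < s ∧ s < α ∧ 0 < σ (s, w) := by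
    rcases hα0.eq_or_lt with he | hlt
    · exact Or.inl he.symm
    · refine Or.inr fun ε hε => ?_
      by_contra hcon
      push Not at hcon
      have h1 : max 0 (α - ε / 2) ∈ A := by
        refine ⟨le_max_left _ _, max_le hr (by linarith), fun x hx => ?_⟩
        rcases le_or_gt α x with hxα | hxα
        · exact hα2 x ⟨hxα, hx.2⟩
        · have h2 : 0 ≤ x := (le_max_left _ _).trans hx.1
          have h3 : α - ε / 2 ≤ x := (le_max_right _ _).trans hx.1
          exact hcon x h2 (by linarith) hxα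
      have h2 := csInf_le hAb h1
      have h3 : max 0 (α - ε / 2) < α := max_lt hlt (by linarith)
      linarith
  refine ⟨α, β, ⟨hα0, hαr.trans hrβ, ?_, hβ3, hα3⟩, hαr, hrβ⟩
  intro s hs
  rcases le_total s r with h1 | h1
  · exact hα2 s ⟨hs.1, h1⟩
  · exact hβ2 s ⟨h1, hs.2⟩

theorem typeII_deriv (hσ : Slice σ) {w₀ : ℂ} {α β : ℝ} (hm : MaxInt σ w₀ α β)
    (h : ∀ s ∈ Icc α β, ¬ σ (s, w₀) < 0) :
    ∀ s ∈ Icc α β, σ (s, w₀) = 0 ∧ fderiv ℝ σ (s, w₀) (1, 0) = 0 := by
  obtain ⟨hα0, hαβ, hle, hup, hlo⟩ := hm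
  intro s hs
  have h0 : σ (s, w₀) = 0 := le_antisymm (hle s hs) (not_lt.1 (h s hs))
  refine ⟨h0, ?_⟩
  set d := fderiv ℝ σ (s, w₀) (1, 0) with hd
  have hdiff : Differentiable ℝ σ := hσ.smooth.differentiable (by simp)
  have hder : HasDerivAt (fun t : ℝ => σ (s + t, w₀)) d 0 := by
    have h1 : HasFDerivAt σ (fderiv ℝ σ (s, w₀)) (s + 0, w₀) := by
      rw [add_zero]; exact (hdiff (s, w₀)).hasFDerivAt
    have h2 : HasDerivAt (fun t : ℝ => ((s + t, w₀) : ℝ × ℂ)) (1, 0) 0 := by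
      have h3 : HasDerivAt (fun t : ℝ => s + t) 1 0 := (hasDerivAt_id 0).const_add s
      exact h3.prodMk (hasDerivAt_const 0 w₀)
    exact h1.comp_hasDerivAt (0 : ℝ) h2
  have hslope := hder.tendsto_slope
  rcases lt_trichotomy d 0 with hneg | hz | hpos
  · exfalso
    have h1 : ∀ᶠ t in nhdsWithin (0 : ℝ) {0}ᶜ, slope (fun t : ℝ => σ (s + t, w₀)) 0 t < 0 :=
      hslope.eventually_lt_const hneg
    rw [eventually_nhdsWithin_iff, Metric.eventually_nhds_iff] at h1
    obtain ⟨ε, hε, h1⟩ := h1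
    have h2 : ∀ t, 0 < t → t < ε → σ (s + t, w₀) < 0 := by
      intro t ht htε
      have h3 := h1 (y := t) (by rw [Real.dist_eq, sub_zero, abs_of_pos ht]; exact htε) ht.ne'
      rw [slope_def_field, add_zero, h0, sub_zero, sub_zero] at h3
      rcases div_neg_iff.1 h3 with h4 | h4
      · linarith [h4.2]
      · exact h4.1
    rcases hs.2.eq_or_lt with he | hlt
    · obtain ⟨s', h3, h4, h5⟩ := hup ε hε
      have h6 := h2 (s' - s) (by linarith) (by linarith)
      rw [add_sub_cancel] at h6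
      linarith
    · have h3 := h2 (min (ε / 2) (β - s)) (lt_min (by linarith) (by linarith))
        ((min_le_left _ _).trans_lt (by linarith))
      refine h _ ⟨?_, ?_⟩ h3
      · have : 0 < min (ε / 2) (β - s) := lt_min (by linarith) (by linarith)
        linarith [hs.1]
      · have := min_le_right (ε / 2) (β - s)
        linarith
  · exact hz
  · exfalso
    have h1 : ∀ᶠ t in nhdsWithin (0 : ℝ) {0}ᶜ, 0 < slope (fun t : ℝ => σ (s + t, w₀)) 0 t :=
      hslope.eventually_const_lt hpos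
    rw [eventually_nhdsWithin_iff, Metric.eventually_nhds_iff] at h1
    obtain ⟨ε, hε, h1⟩ := h1
    have h2 : ∀ t, 0 < t → t < ε → σ (s - t, w₀) < 0 := by
      intro t ht htε
      have h3 := h1 (y := -t) (by
        rw [Real.dist_eq, sub_zero, abs_neg, abs_of_pos ht]; exact htε) (neg_ne_zero.2 ht.ne')
      rw [slope_def_field, add_zero, h0, sub_zero, sub_zero, ← sub_eq_add_neg] at h3
      rcases div_pos_iff.1 h3 with h4 | h4
      · linarith [h4.2]
      · exact h4.1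
    rcases hs.1.eq_or_lt with he | hlt
    · rcases hlo with h3 | h3
      · have hs0 : s = 0 := by rw [← he, h3]
        have h4 := hσ.deriv0 w₀ (by have h5 := h0; rw [hs0] at h5; exact h5)
        rw [hd, hs0, h4] at hpos
        exact lt_irrefl _ hpos
      · obtain ⟨s', h4, h5, h6, h7⟩ := h3 ε hε
        have h8 := h2 (s - s') (by linarith) (by linarith)
        rw [sub_sub_cancel] at h8
        linarith
    · have h3 := h2 (min (ε / 2) (s - α)) (lt_min (by linarith) (by linarith))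
        ((min_le_left _ _).trans_lt (by linarith))
      refine h _ ⟨?_, ?_⟩ h3
      · have := min_le_right (ε / 2) (s - α)
        linarith
      · have : 0 < min (ε / 2) (s - α) := lt_min (by linarith) (by linarith)
        linarith [hs.2]

end Pool.Helper51.Hart
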